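import Pool.Agent.W206.YP.Stm

set_option autoImplicit false

namespace Pool.Agent.W50.YP.IND

open Cardinal Pool.Agent.W206.YP

theorem qb_card : #Qb ≤ ℵ₀ := by
  have : Algebra.IsAlgebraic ℚ Qb := algebraicClosure.isAlgebraic ℚ ℂ
  have h := Algebra.IsAlgebraic.cardinalMk_le_max ℚ Qb
  simpa using h

theorem part1 (S : Set ℂ) (hS : S.Countable) :
    ((IntermediateField.adjoin Qb S : IntermediateField Qb ℂ) : Set ℂ).Countable := by
  have h := IntermediateField.cardinalMk_adjoin_le Qb S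
  have h1 : #S ≤ ℵ₀ := Cardinal.le_aleph0_iff_set_countable.mpr hS
  have h2 : #(IntermediateField.adjoin Qb S) ≤ ℵ₀ :=
    h.trans (sup_le (sup_le qb_card h1) le_rfl)
  exact Cardinal.le_aleph0_iff_set_countable.mp h2

theorem part2 (K : IntermediateField Qb ℂ) (hK : (K : Set ℂ).Countable) (V : Type) [Fintype V] :
    ∃ t : V → ℂ, AlgebraicIndependent K t := by
  obtain ⟨s, hs⟩ := exists_isTranscendenceBasis K ℂ
  have hcard := IsAlgClosed.cardinal_eq_cardinal_transcendence_basis_of_aleph0_lt' (R := K)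
    (K' := ℂ) ((↑) : s → ℂ) hs (Cardinal.le_aleph0_iff_set_countable.mpr hK)
    (by rw [Cardinal.mk_complex]; exact Cardinal.aleph0_lt_continuum)
  have hinf : ℵ₀ ≤ #s := by
    rw [← hcard, Cardinal.mk_complex]
    exact Cardinal.aleph0_le_continuum
  have hV : #V ≤ #s := (Cardinal.mk_fintype V ▸ (Cardinal.natCast_lt_aleph0).le).trans hinf
  obtain ⟨f⟩ := Cardinal.le_def _ _ |>.mp hV
  exact ⟨fun v => (f v : ℂ), hs.1.comp f f.injective⟩

theorem main : S_IND := ⟨part1, fun K hK V _ => part2 K hK V⟩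

end Pool.Agent.W50.YP.IND
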